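import Pool.Agent.H31.GUF.All
import Pool.Agent.H31.MKS.Targets
import Pool.Agent.H1.MKS.DSM
import Pool.Agent.H14.MKS.MDS
import Pool.Agent.H14.MKS.OBS
import Pool.Agent.H69.MKS.UAS
import Pool.Agent.H11.MKS.UMS
import Pool.Agent.H31.MKS.DCS
import Pool.Agent.H39.MKS.IDS
import Pool.Agent.H8.MKS.MKS
import Pool.Agent.H28.GS.EN
import Pool.Agent.H40.GS.B2S
import Pool.Agent.H60.GS.MAS
import Pool.Agent.H79.GS.MIS
import Pool.Agent.H79.GS.S2S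
import Pool.Agent.H69.GS.SPS
import Pool.Agent.H11.GS.STS
import Pool.Agent.H86.GS.SKS
import Pool.Agent.H18.GS.F0S
import Pool.Agent.H40.GS.FNS
import Pool.Agent.H66.GUS.All

/-!
# Structure theorem for the correlations of every order: assembly (MP_c59857_nt)
-/

set_option autoImplicit false

namespace Pool.Agent.H31.GSA.All

theorem k_DSM : Pool.Agent.H31.MKS.K_DSM := Pool.Agent.H1.MKS.pf_DSM Pool.Agent.H31.DP.All.x_DS

theorem k_MDS : Pool.Agent.H31.MKS.K_MDS := Pool.Agent.H14.MKS.pf_MDS k_DSM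

theorem k_OBS : Pool.Agent.H31.MKS.K_OBS := Pool.Agent.H14.MKS.pf_OBS

theorem k_UAS : Pool.Agent.H31.MKS.K_UAS := Pool.Agent.H69.MKS.pf_UAS k_OBS

theorem k_UMS : Pool.Agent.H31.MKS.K_UMS := Pool.Agent.H11.MKS.pf_UMS k_OBS k_UAS Pool.Agent.H31.DPD.All.x_UM

theorem k_DCS : Pool.Agent.H31.MKS.K_DCS := Pool.Agent.H31.MKS.pf_DCS k_MDS k_UMS

theorem k_IDS : Pool.Agent.H31.MKS.K_IDS := Pool.Agent.H39.MKS.pf_IDS

theorem k_MKS : Pool.Agent.H28.GS.T_MKS := Pool.Agent.H8.MKS.pf_MKS k_IDS k_DCS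

theorem b_GAS : Pool.Agent.H28.GS.T_GAS := Pool.Agent.H66.GUS.x_GAS

theorem s_EN : Pool.Agent.H28.GS.T_EN := Pool.Agent.H28.GS.pf_EN

theorem s_B2S : Pool.Agent.H28.GS.T_B2S := Pool.Agent.H40.GS.pf_B2S Pool.Agent.H31.GUF.All.c_HF Pool.Agent.H31.GUF.All.g_BRG

theorem s_MAS : Pool.Agent.H28.GS.T_MAS := Pool.Agent.H60.GS.pf_MAS

theorem s_MIS : Pool.Agent.H28.GS.T_MIS := Pool.Agent.H79.GS.pf_MIS

theorem s_S2S : Pool.Agent.H28.GS.T_S2S := Pool.Agent.H79.GS.pf_S2S Pool.Agent.H31.DP.All.x_T1 s_EN s_B2S s_MAS s_MIS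

theorem s_SPS : Pool.Agent.H28.GS.T_SPS := Pool.Agent.H69.GS.pf_SPS k_MKS b_GAS Pool.Agent.H31.GUF.All.c_PC

theorem s_STS : Pool.Agent.H28.GS.T_STS := Pool.Agent.H11.GS.pf_STS s_SPS Pool.Agent.H31.GUF.All.g_BRG

theorem s_SKS : Pool.Agent.H28.GS.T_SKS := Pool.Agent.H86.GS.pf_SKS s_S2S s_STS s_EN

theorem s_F0S : Pool.Agent.H28.GS.T_F0S := Pool.Agent.H18.GS.pf_F0S s_SKS s_EN Pool.Agent.H31.GUF.All.g_LIG Pool.Agent.H31.DP.All.x_MU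

theorem s_FNS : Pool.Agent.H28.GS.T_FNS := Pool.Agent.H40.GS.pf_FNS s_F0S Pool.Agent.H31.GUF.All.g_FNG

end Pool.Agent.H31.GSA.All
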